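import Pool.Agent.W876.Cut.Seq2

/-!
# MP_0eabd7_lc, Q1: an algebra with property (P) and cardinal sequence `⟨ℵ₁, ℵ₁, …, 1⟩` of
length `ω₁`, in ZFC

Definitions (all in `Pool.Agent.W876.Cut.Defs`):

* `Quo J` is the quotient Boolean algebra `B/J` of `B` by the ideal `J`.
* `PropP B` is property (P): `B/J ≅ B` for every ideal `J` with `B/J` uncountable.
* `cb B β` is the Cantor-Bendixson ideal `I_β(B)`.
* `CardSeq B κ δ`: `B` is superatomic, `δ` is the least ordinal with `B/I_δ` finite, `B/I_β` has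
  `κ` atoms for every `β < δ`, and `B/I_δ` has exactly one atom.

The witness is the algebra of clopen subsets of the ordinal space `ω₁ + 1`
(the interval algebra of `ω₁`).
-/

namespace Pool.Agent.Results.MP_0eabd7_lc.OmegaOneLength

open Pool.Agent.W876.Cut Set
open scoped Cardinal

/-- The members of the algebra contained in `[0, δ]`. -/
theorem countable_below (δ : Om) : {b : CO | ∀ x ∈ (b : Set Om), x ≤ δ}.Countable := by
  have h1 : MapsTo (fun b : CO => (b : Set Om)) {b : CO | ∀ x ∈ (b : Set Om), x ≤ δ} (Tr δ) := by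
    intro b hb
    exact ⟨b, inter_eq_left.2 fun x hx => hb x hx⟩
  exact h1.countable_of_injOn (fun a _ b _ h => Subtype.ext h) (Tr_countable δ)

theorem mk_CO_le : #CO ≤ Cardinal.aleph 1 := by
  set A : Om → Set CO := fun δ => {b : CO | ∀ x ∈ (b : Set Om), x ≤ δ} ∪
    compl '' {b : CO | ∀ x ∈ (b : Set Om), x ≤ δ} with hA
  have hc : ∀ δ, (A δ).Countable := fun δ =>
    (countable_below δ).union ((countable_below δ).image _)
  have hU : (⋃ δ, A δ) = Set.univ := by
    rw [eq_univ_iff_forall]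
    intro b
    obtain ⟨γ, h | h⟩ := co_ev b
    · refine mem_iUnion.2 ⟨γ, Or.inr ⟨bᶜ, ?_, compl_compl b⟩⟩
      intro x hx
      by_contra hxγ
      exact hx (h x (not_le.1 hxγ))
    · refine mem_iUnion.2 ⟨γ, Or.inl ?_⟩
      intro x hx
      by_contra hxγ
      exact h x (not_le.1 hxγ) hx
  have h1 : #CO = #(⋃ δ, A δ) := by rw [hU, Cardinal.mk_univ]
  rw [h1]
  refine (Cardinal.mk_iUnion_le A).trans ?_
  rw [mk_Om]
  have h2 : (⨆ i, #(A i)) ≤ Cardinal.aleph0 := ciSup_le' fun δ => (hc δ).le_aleph0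
  calc Cardinal.aleph 1 * (⨆ i, #(A i)) ≤ Cardinal.aleph 1 * Cardinal.aleph0 := by gcongr
    _ ≤ Cardinal.aleph 1 * Cardinal.aleph 1 := by gcongr; exact Cardinal.aleph0_le_aleph 1
    _ = Cardinal.aleph 1 := Cardinal.mul_eq_self (Cardinal.aleph0_le_aleph 1)

theorem mk_CO : #CO = Cardinal.aleph 1 := by
  refine le_antisymm mk_CO_le ?_
  rw [← mk_Om]
  exact Cardinal.mk_le_of_injective ini_injective

/-- **Q1 (ZFC).** There is a Boolean algebra with property (P), of size `ℵ₁`, whose cardinal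
sequence is `⟨ℵ₁, ℵ₁, …, 1⟩` of length `ω₁`. -/
theorem result : ∃ (B : Type) (_ : BooleanAlgebra B), #B = Cardinal.aleph 1 ∧ PropP B ∧
    CardSeq B (Cardinal.aleph 1) (Ordinal.omega 1 : Ordinal.{0}) := by
  refine ⟨CO, inferInstance, mk_CO, propP_co, ?_⟩
  rw [← Cardinal.ord_aleph]
  exact cardSeq_co

end Pool.Agent.Results.MP_0eabd7_lc.OmegaOneLength
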